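import Mathlib
import Pool.Agent.W2helper18.KG.Stm

set_option autoImplicit false

/-!
# Piece KG-EQD (for helper18, `MP_33a4a7_nt`): Riemann sums over the boxes
-/

namespace Pool.Agent.W2helper53.KG

open MeasureTheory Finset Filter Pool.Agent.W2helper18.KG

/-- the closed box -/
def cbx (q : ℕ) (a : ℕ × ℕ) (y : ℝ × ℝ) (δ : ℝ) : Set TT :=
  Metric.closedBall (cc q a.1 y.1) δ ×ˢ Metric.closedBall (cc q a.2 y.2) δ

lemma vol_ball' (c : UnitAddCircle) (r : ℝ) (_h0 : 0 ≤ r) (h1 : r ≤ 1 / 2) :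
    volume (Metric.ball c r) = ENNReal.ofReal (2 * r) := by
  rw [← measure_congr (AddCircle.closedBall_ae_eq_ball (T := 1) (x := c) (ε := r))]
  rw [AddCircle.volume_closedBall, min_eq_right (by linarith)]

lemma vol_cball (c : UnitAddCircle) (r : ℝ) (_h0 : 0 ≤ r) (h1 : r ≤ 1 / 2) :
    volume (Metric.closedBall c r) = ENNReal.ofReal (2 * r) := by
  rw [AddCircle.volume_closedBall, min_eq_right (by linarith)]

lemma vol_bx (q : ℕ) (a : ℕ × ℕ) (y : ℝ × ℝ) (δ : ℝ) (h0 : 0 ≤ δ) (h1 : δ ≤ 1 / 2) :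
    (volume : Measure TT).real (bx q a y δ) = 4 * δ ^ 2 := by
  unfold bx
  rw [measureReal_def, Measure.volume_eq_prod, Measure.prod_prod, vol_ball' _ _ h0 h1,
    vol_ball' _ _ h0 h1, ENNReal.toReal_mul, ENNReal.toReal_ofReal (by linarith)]
  ring

lemma vol_cbx (q : ℕ) (a : ℕ × ℕ) (y : ℝ × ℝ) (δ : ℝ) (h0 : 0 ≤ δ) (h1 : δ ≤ 1 / 2) :
    (volume : Measure TT).real (cbx q a y δ) = 4 * δ ^ 2 := by
  unfold cbx
  rw [measureReal_def, Measure.volume_eq_prod, Measure.prod_prod, vol_cball _ _ h0 h1,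
    vol_cball _ _ h0 h1, ENNReal.toReal_mul, ENNReal.toReal_ofReal (by linarith)]
  ring

lemma isOpen_bx (q : ℕ) (a : ℕ × ℕ) (y : ℝ × ℝ) (δ : ℝ) : IsOpen (bx q a y δ) :=
  Metric.isOpen_ball.prod Metric.isOpen_ball

lemma isClosed_cbx (q : ℕ) (a : ℕ × ℕ) (y : ℝ × ℝ) (δ : ℝ) : IsClosed (cbx q a y δ) :=
  Metric.isClosed_closedBall.prod Metric.isClosed_closedBall

lemma coe_add_int (t : ℝ) (n : ℤ) : ((t + n : ℝ) : UnitAddCircle) = (t : UnitAddCircle) := by
  rw [AddCircle.coe_add]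
  have : ((n : ℝ) : UnitAddCircle) = 0 := by
    rw [AddCircle.coe_eq_zero_iff]
    exact ⟨n, by simp⟩
  rw [this, add_zero]

lemma norm_coe_le (t : ℝ) : ‖(t : UnitAddCircle)‖ ≤ |t| := by
  rw [UnitAddCircle.norm_eq]
  simpa using round_le t 0

lemma cover1 (q : ℕ) (hq : 0 < q) (y : ℝ) (x : UnitAddCircle) :
    ∃ s ∈ range q, dist x (cc q s y) ≤ 1 / (2 * q) := by
  obtain ⟨t, rfl⟩ := QuotientAddGroup.mk_surjective x
  have hq' : (0 : ℝ) < q := by exact_mod_cast hq
  set n : ℤ := round (q * t - y) with hn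
  have h1 : |(q * t - y) - n| ≤ 1 / 2 := abs_sub_round _
  have hqz : (0 : ℤ) < q := by exact_mod_cast hq
  refine ⟨(n % q).toNat, ?_, ?_⟩
  · rw [mem_range]
    have := Int.emod_lt_of_pos n hqz
    have h0 := Int.emod_nonneg n hqz.ne'
    omega
  · have h0 := Int.emod_nonneg n hqz.ne'
    have h2 : (((n % q).toNat : ℕ) : ℝ) = n - q * (n / q : ℤ) := by
      have : (((n % q).toNat : ℕ) : ℤ) = n - q * (n / q) := by
        rw [Int.toNat_of_nonneg h0, Int.emod_def]
      exact_mod_cast this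
    have h3 : cc q (n % q).toNat y = ((((n : ℝ) + y) / q : ℝ) : UnitAddCircle) := by
      unfold cc
      rw [← coe_add_int ((((n % q).toNat : ℕ) + y) / q) (n / q), h2]
      congr 1
      field_simp
      ring
    rw [h3, dist_eq_norm]
    have h4 : ((t : ℝ) : UnitAddCircle) - ((((n : ℝ) + y) / q : ℝ) : UnitAddCircle) =
        ((t - ((n : ℝ) + y) / q : ℝ) : UnitAddCircle) := by
      rw [AddCircle.coe_sub]
    change ‖((t : ℝ) : UnitAddCircle) - ((((n : ℝ) + y) / q : ℝ) : UnitAddCircle)‖ ≤ _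
    rw [h4]
    refine (norm_coe_le _).trans ?_
    have h5 : t - ((n : ℝ) + y) / q = ((q * t - y) - n) / q := by
      field_simp
      ring
    rw [h5, abs_div, abs_of_pos hq', div_le_div_iff₀ hq' (by positivity)]
    nlinarith

lemma cover2 (q : ℕ) (hq : 0 < q) (y : ℝ × ℝ) (x : TT) :
    ∃ a ∈ range q ×ˢ range q, x ∈ cbx q a y (1 / (2 * q)) := by
  obtain ⟨s, hs, h1⟩ := cover1 q hq y.1 x.1
  obtain ⟨t, ht, h2⟩ := cover1 q hq y.2 x.2
  exact ⟨(s, t), mem_product.2 ⟨hs, ht⟩, ⟨Metric.mem_closedBall.2 h1, Metric.mem_closedBall.2 h2⟩⟩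

theorem p_eqd : P_EQD := by
  intro g hg hg0 ε hε
  have huc := CompactSpace.uniformContinuous_of_continuous hg
  rw [Metric.uniformContinuous_iff] at huc
  obtain ⟨η, hη, hu⟩ := huc (ε / 2) (by positivity)
  obtain ⟨N, hN⟩ := exists_nat_gt (1 / η)
  refine ⟨N, fun q hNq hq y δ h0 h1 => ?_⟩
  have hq' : (0 : ℝ) < q := by exact_mod_cast hq
  have hqη : 1 / (q : ℝ) < η := by
    rw [div_lt_iff₀ hq']
    rw [div_lt_iff₀ hη] at hN
    have : (N : ℝ) ≤ q := by exact_mod_cast hNq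
    nlinarith
  have hq1 : (1 : ℝ) ≤ q := by exact_mod_cast hq
  have hhalf : 1 / (2 * (q : ℝ)) ≤ 1 / 2 := by
    rw [div_le_div_iff₀ (by positivity) (by norm_num)]
    linarith
  have hhq : 1 / (2 * (q : ℝ)) < η := by
    refine lt_of_le_of_lt ?_ hqη
    rw [div_le_div_iff₀ (by positivity) hq']
    linarith
  have hδη : δ ≤ 1 / (2 * (q : ℝ)) := by
    refine h1.trans ?_
    rw [div_le_div_iff₀ (by positivity) (by positivity)]
    linarith
  have hδ2 : δ ≤ 1 / 2 := hδη.trans hhalf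
  set c : ℕ × ℕ → TT := fun a => (cc q a.1 y.1, cc q a.2 y.2) with hc
  have hgi : Integrable g := by
    have : IntegrableOn g Set.univ := hg.continuousOn.integrableOn_compact isCompact_univ
    rwa [integrableOn_univ] at this
  -- closeness
  have hclose : ∀ (a : ℕ × ℕ) (x : TT), x ∈ cbx q a y (1 / (2 * q)) →
      |g x - g (c a)| ≤ ε / 2 := by
    intro a x hx
    have hd : dist x (c a) < η := by
      refine lt_of_le_of_lt ?_ hhq
      rw [Prod.dist_eq]
      exact max_le (Metric.mem_closedBall.1 hx.1) (Metric.mem_closedBall.1 hx.2)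
    have := hu hd
    rw [Real.dist_eq] at this
    exact this.le
  have hlow : ∀ a : ℕ × ℕ, 4 * δ ^ 2 * (g (c a) - ε / 2) ≤ ∫ x in bx q a y δ, g x := by
    intro a
    have h2 : ∫ _ in bx q a y δ, (g (c a) - ε / 2) ≤ ∫ x in bx q a y δ, g x := by
      refine setIntegral_mono_on (integrable_const _).integrableOn hgi.integrableOn
        (isOpen_bx _ _ _ _).measurableSet fun x hx => ?_
      have hx' : x ∈ cbx q a y (1 / (2 * q)) :=
        ⟨Metric.mem_closedBall.2 ((Metric.mem_ball.1 hx.1).le.trans hδη),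
          Metric.mem_closedBall.2 ((Metric.mem_ball.1 hx.2).le.trans hδη)⟩
      have := abs_le.1 (hclose a x hx')
      linarith [this.1]
    rw [setIntegral_const, vol_bx _ _ _ _ h0 hδ2, smul_eq_mul] at h2
    exact h2
  have hup : ∀ a : ℕ × ℕ, ∫ x in cbx q a y (1 / (2 * q)), g x ≤
      (1 / (q : ℝ) ^ 2) * (g (c a) + ε / 2) := by
    intro a
    have h2 : ∫ x in cbx q a y (1 / (2 * q)), g x ≤
        ∫ _ in cbx q a y (1 / (2 * q)), (g (c a) + ε / 2) := by
      refine setIntegral_mono_on hgi.integrableOn (integrable_const _).integrableOn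
        (isClosed_cbx _ _ _ _).measurableSet fun x hx => ?_
      have := abs_le.1 (hclose a x hx)
      linarith [this.2]
    rw [setIntegral_const, vol_cbx _ _ _ _ (by positivity) hhalf, smul_eq_mul] at h2
    have h3 : 4 * (1 / (2 * (q : ℝ))) ^ 2 = 1 / (q : ℝ) ^ 2 := by
      field_simp
      norm_num
    rwa [h3] at h2
  have htot : ∫ x, g x ≤ ∑ a ∈ range q ×ˢ range q, ∫ x in cbx q a y (1 / (2 * q)), g x := by
    have h2 : ∀ a ∈ range q ×ˢ range q,
        Integrable (fun x => (cbx q a y (1 / (2 * q))).indicator g x) := fun a _ =>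
      hgi.indicator (isClosed_cbx _ _ _ _).measurableSet
    have h3 : ∫ x, g x ≤ ∫ x, ∑ a ∈ range q ×ˢ range q, (cbx q a y (1 / (2 * q))).indicator g x := by
      refine integral_mono hgi (integrable_finsetSum _ h2) fun x => ?_
      obtain ⟨a, ha, hx⟩ := cover2 q hq y x
      have h4 : g x = (cbx q a y (1 / (2 * q))).indicator g x := (Set.indicator_of_mem hx g).symm
      change g x ≤ ∑ a ∈ range q ×ˢ range q, (cbx q a y (1 / (2 * q))).indicator g x
      rw [h4]
      exact single_le_sum (f := fun a => (cbx q a y (1 / (2 * q))).indicator g x)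
        (fun b _ => Set.indicator_nonneg (fun _ _ => hg0 _) x) ha
    rw [integral_finsetSum _ h2] at h3
    refine h3.trans (le_of_eq (sum_congr rfl fun a _ => ?_))
    rw [integral_indicator (isClosed_cbx _ _ _ _).measurableSet]
  have hcard : ((range q ×ˢ range q).card : ℝ) = (q : ℝ) ^ 2 := by
    rw [card_product, card_range]
    push_cast
    ring
  have hS : ∫ x, g x ≤ (1 / (q : ℝ) ^ 2) * (∑ a ∈ range q ×ˢ range q, g (c a)) + ε / 2 := by
    refine htot.trans ((sum_le_sum fun a _ => hup a).trans (le_of_eq ?_))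
    rw [← mul_sum, sum_add_distrib, sum_const, nsmul_eq_mul, hcard]
    field_simp
  have hT : 4 * δ ^ 2 * ((∑ a ∈ range q ×ˢ range q, g (c a)) - (q : ℝ) ^ 2 * (ε / 2)) ≤
      ∑ a ∈ range q ×ˢ range q, ∫ x in bx q a y δ, g x := by
    refine le_trans (le_of_eq ?_) (sum_le_sum fun a _ => hlow a)
    rw [← mul_sum, sum_sub_distrib, sum_const, nsmul_eq_mul, hcard]
  refine le_trans ?_ hT
  have hS' : (q : ℝ) ^ 2 * ∫ x, g x ≤ (∑ a ∈ range q ×ˢ range q, g (c a)) + (q : ℝ) ^ 2 * (ε / 2) := by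
    have := mul_le_mul_of_nonneg_left hS (by positivity : (0 : ℝ) ≤ (q : ℝ) ^ 2)
    refine this.trans (le_of_eq ?_)
    field_simp
  have h4 : 0 ≤ 4 * δ ^ 2 := by positivity
  have := mul_le_mul_of_nonneg_left hS' h4
  nlinarith

end Pool.Agent.W2helper53.KG
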