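import Mathlib
import Pool.Agent.W2helper18.KG.Stm
import Pool.Agent.W2helper53.KG.Eqd

set_option autoImplicit false

/-!
# Piece KG-WK (for helper18, `MP_33a4a7_nt`): the weak compactness argument
-/

namespace Pool.Agent.W2helper53.KG

open MeasureTheory Finset Filter Pool.Agent.W2helper18.KG

/-- an interval of indices with sum between `1` and `2` -/
lemma exists_block (ψ : ℕ → ℝ) (h0 : ∀ q, 0 ≤ ψ q) (h8 : ∀ q, ψ q ≤ 1 / 8)
    (hns : ¬ Summable (fun q : ℕ => ψ q ^ 2)) (M : ℕ) :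
    ∃ M' : ℕ, 1 ≤ ∑ q ∈ Ico M M', ψ q ^ 2 ∧ ∑ q ∈ Ico M M', ψ q ^ 2 ≤ 2 := by
  classical
  have hex : ∃ n, 1 ≤ ∑ q ∈ Ico M n, ψ q ^ 2 := by
    have ht := (not_summable_iff_tendsto_nat_atTop_of_nonneg
      (f := fun q : ℕ => ψ q ^ 2) (fun q => sq_nonneg _)).1 hns
    obtain ⟨n, hn⟩ := (ht.eventually_ge_atTop (1 + ∑ i ∈ range M, ψ i ^ 2)).exists
    by_cases hMn : M ≤ n
    · refine ⟨n, ?_⟩
      rw [sum_Ico_eq_sub _ hMn]
      linarith
    · exfalso
      push Not at hMn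
      have : ∑ i ∈ range n, ψ i ^ 2 ≤ ∑ i ∈ range M, ψ i ^ 2 :=
        sum_le_sum_of_subset_of_nonneg (range_subset_range.2 hMn.le) fun _ _ _ => sq_nonneg _
      linarith
  refine ⟨Nat.find hex, Nat.find_spec hex, ?_⟩
  set n := Nat.find hex with hn
  have hspec : 1 ≤ ∑ q ∈ Ico M n, ψ q ^ 2 := Nat.find_spec hex
  have hMn : M < n := by
    by_contra h
    push Not at h
    rw [Ico_eq_empty_of_le h, sum_empty] at hspec
    linarith
  obtain ⟨k, hk⟩ : ∃ k, n = k + 1 := ⟨n - 1, by omega⟩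
  have hlt : ∑ q ∈ Ico M k, ψ q ^ 2 < 1 := by
    have := Nat.find_min hex (m := k) (by omega)
    exact not_le.1 this
  have hsum : ∑ q ∈ Ico M n, ψ q ^ 2 = ∑ q ∈ Ico M k, ψ q ^ 2 + ψ k ^ 2 := by
    rw [hk, sum_Ico_succ_top (by omega)]
  have h3 : ψ k ^ 2 ≤ 1 := by
    have h1 := h0 k
    have h2 := h8 k
    nlinarith
  linarith

/-- Urysohn function for a compact set -/
lemma exists_cont (K : Set TT) (hK : IsClosed K) (ε : ℝ) (hε : 0 < ε) :
    ∃ g : TT → ℝ, Continuous g ∧ (∀ x, 0 ≤ g x) ∧ (∀ x, g x ≤ 1) ∧ (∀ x ∈ K, g x = 1) ∧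
      ∫ x, Kᶜ.indicator (fun x => g x ^ 2) x ≤ ε := by
  obtain ⟨U, hKU, hUo, hU⟩ := K.exists_isOpen_lt_add (μ := (volume : Measure TT))
    (measure_lt_top _ _).ne (ε := ENNReal.ofReal ε) (by simpa using hε)
  have hdis : Disjoint Uᶜ K := by
    rw [Set.disjoint_left]
    intro x hx hxK
    exact hx (hKU hxK)
  obtain ⟨f, hf0, hf1, hf⟩ := exists_continuous_zero_one_of_isClosed hUo.isClosed_compl hK hdis
  refine ⟨f, f.continuous, fun x => (hf x).1, fun x => (hf x).2, fun x hx => by simpa using hf1 hx, ?_⟩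
  have hle : ∀ x, Kᶜ.indicator (fun x => (f x) ^ 2) x ≤ (U \ K).indicator (fun _ => (1 : ℝ)) x := by
    intro x
    by_cases hxK : x ∈ K
    · rw [Set.indicator_of_notMem (by simpa using hxK)]
      exact Set.indicator_nonneg (fun _ _ => zero_le_one) _
    · rw [Set.indicator_of_mem (by simpa using hxK)]
      by_cases hxU : x ∈ U
      · rw [Set.indicator_of_mem (show x ∈ U \ K from ⟨hxU, hxK⟩)]
        have h1 := (hf x).1
        have h2 := (hf x).2
        nlinarith
      · have : f x = 0 := by simpa using hf0 hxU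
        rw [this]
        simp [Set.indicator, hxU]
  have hm : MeasurableSet (U \ K) := hUo.measurableSet.diff hK.measurableSet
  have hint : Integrable (fun x => Kᶜ.indicator (fun x => (f x) ^ 2) x) := by
    have hc : Continuous fun x => (f x) ^ 2 := f.continuous.pow 2
    have : IntegrableOn (fun x => (f x) ^ 2) Set.univ :=
      hc.continuousOn.integrableOn_compact isCompact_univ
    rw [integrableOn_univ] at this
    exact this.indicator hK.measurableSet.compl
  have h1 : ∫ x, Kᶜ.indicator (fun x => (f x) ^ 2) x ≤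
      ∫ x, (U \ K).indicator (fun _ => (1 : ℝ)) x :=
    integral_mono hint ((integrable_const (1 : ℝ)).indicator hm) hle
  refine h1.trans ?_
  rw [integral_indicator hm, setIntegral_const, smul_eq_mul, mul_one]
  have h2 : (volume : Measure TT) (U \ K) ≤ ENNReal.ofReal ε := by
    rw [measure_sdiff hKU hK.measurableSet.nullMeasurableSet (measure_lt_top _ _).ne]
    rw [tsub_le_iff_left]
    exact hU.le
  rw [measureReal_def]
  exact ENNReal.toReal_le_of_le_ofReal hε.le h2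

lemma ind_integrable (S : Set TT) (hS : MeasurableSet S) :
    Integrable (S.indicator (fun _ => (1 : ℝ))) :=
  (integrable_const (1 : ℝ)).indicator hS

lemma ind_integral (S : Set TT) (hS : MeasurableSet S) :
    ∫ x, S.indicator (fun _ => (1 : ℝ)) x = (volume : Measure TT).real S := by
  rw [integral_indicator hS, setIntegral_const, smul_eq_mul, mul_one]

lemma ind_mul (S T : Set TT) (x : TT) :
    S.indicator (fun _ => (1 : ℝ)) x * T.indicator (fun _ => (1 : ℝ)) x =
      (S ∩ T).indicator (fun _ => (1 : ℝ)) x := by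
  by_cases h1 : x ∈ S <;> by_cases h2 : x ∈ T <;> simp [Set.indicator, h1, h2]

lemma key (hSM : P_SM) (hEQ : P_EQD) (y : ℝ × ℝ) (ψ : ℕ → ℝ) (h0 : ∀ q, 0 ≤ ψ q)
    (h8 : ∀ q, ψ q ≤ 1 / 8) (hns : ¬ Summable (fun q : ℕ => ψ q ^ 2))
    (K : Set TT) (hK : IsClosed K) (N : ℕ)
    (hKd : ∀ x ∈ K, ∀ q, N ≤ q → 0 < q → ∀ a ∈ range q ×ˢ range q, x ∉ bx q a y (ψ q / q)) :
    (volume : Measure TT) K = 0 := by
  classical
  by_contra hne
  set κ : ℝ := (volume : Measure TT).real K with hκd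
  have hκ : 0 < κ := by
    rw [hκd, measureReal_def]
    exact ENNReal.toReal_pos hne (measure_lt_top _ _).ne
  obtain ⟨C, G, hC, hG1, hG2, hG3⟩ := hSM y (κ / 4) (by positivity)
  set ε : ℝ := κ / (9 * C + 10) with hεd
  have hε : 0 < ε := by positivity
  obtain ⟨g, hgc, hg0, hg1, hgK, hgε⟩ := exists_cont K hK (ε ^ 2) (by positivity)
  obtain ⟨N1, hN1⟩ := hEQ g hgc hg0 ε hε
  set M : ℕ := max (max N N1) 1 with hM
  obtain ⟨M', hΨ1, hΨ2⟩ := exists_block ψ h0 h8 hns M
  set F : Finset ℕ := Ico M M' with hF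
  have hFm : ∀ q ∈ F, N ≤ q ∧ N1 ≤ q ∧ 0 < q := by
    intro q hq
    have := (mem_Ico.1 hq).1
    omega
  set Ψ : ℝ := ∑ q ∈ F, ψ q ^ 2 with hΨ
  set B : ℕ → ℕ × ℕ → Set TT := fun q a => bx q a y (ψ q / q) with hB
  have hBm : ∀ q a, MeasurableSet (B q a) := fun q a => (isOpen_bx _ _ _ _).measurableSet
  set φ : ℕ → ℕ × ℕ → TT → ℝ := fun q a => (B q a).indicator (fun _ => (1 : ℝ)) with hφ
  set H : TT → ℝ := fun x => ∑ q ∈ F, ∑ a ∈ G q, φ q a x with hH
  have hgi : Integrable g := by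
    have : IntegrableOn g Set.univ := hgc.continuousOn.integrableOn_compact isCompact_univ
    rwa [integrableOn_univ] at this
  -- the second moment
  have hH2 : ∀ x, H x ^ 2 = ∑ q ∈ F, ∑ r ∈ F, ∑ a ∈ G q, ∑ b ∈ G r,
      (B q a ∩ B r b).indicator (fun _ => (1 : ℝ)) x := by
    intro x
    rw [sq, hH]
    simp only
    rw [sum_mul_sum]
    refine sum_congr rfl fun q _ => sum_congr rfl fun r _ => ?_
    rw [sum_mul_sum]
    refine sum_congr rfl fun a _ => sum_congr rfl fun b _ => ?_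
    exact ind_mul _ _ _
  have hint2 : ∀ q r a b, Integrable (fun x => (B q a ∩ B r b).indicator (fun _ => (1 : ℝ)) x) :=
    fun q r a b => ind_integrable _ ((hBm q a).inter (hBm r b))
  have hH2i : Integrable (fun x => H x ^ 2) := by
    have : (fun x => H x ^ 2) = fun x => ∑ q ∈ F, ∑ r ∈ F, ∑ a ∈ G q, ∑ b ∈ G r,
      (B q a ∩ B r b).indicator (fun _ => (1 : ℝ)) x := funext hH2
    rw [this]
    exact integrable_finsetSum _ fun q _ => integrable_finsetSum _ fun r _ =>
      integrable_finsetSum _ fun a _ => integrable_finsetSum _ fun b _ => hint2 q r a b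
  have hH2v : ∫ x, H x ^ 2 ≤ 9 * C := by
    have h1 : ∫ x, H x ^ 2 = ∑ q ∈ F, ∑ r ∈ F, ∑ a ∈ G q, ∑ b ∈ G r,
        (volume : Measure TT).real (bx q a y (ψ q / q) ∩ bx r b y (ψ r / r)) := by
      have : (fun x => H x ^ 2) = fun x => ∑ q ∈ F, ∑ r ∈ F, ∑ a ∈ G q, ∑ b ∈ G r,
        (B q a ∩ B r b).indicator (fun _ => (1 : ℝ)) x := funext hH2
      rw [this]
      rw [integral_finsetSum _ fun q _ => integrable_finsetSum _ fun r _ =>
        integrable_finsetSum _ fun a _ => integrable_finsetSum _ fun b _ => hint2 q r a b]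
      refine sum_congr rfl fun q _ => ?_
      rw [integral_finsetSum _ fun r _ =>
        integrable_finsetSum _ fun a _ => integrable_finsetSum _ fun b _ => hint2 q r a b]
      refine sum_congr rfl fun r _ => ?_
      rw [integral_finsetSum _ fun a _ => integrable_finsetSum _ fun b _ => hint2 q r a b]
      refine sum_congr rfl fun a _ => ?_
      rw [integral_finsetSum _ fun b _ => hint2 q r a b]
      refine sum_congr rfl fun b _ => ?_
      exact ind_integral _ ((hBm q a).inter (hBm r b))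
    rw [h1]
    refine (hG3 ψ h0 h8 F fun q hq => (hFm q hq).2.2).trans ?_
    have h2 : (1 + ∑ q ∈ F, ψ q ^ 2) ^ 2 ≤ 9 := by
      have h3 : 0 ≤ ∑ q ∈ F, ψ q ^ 2 := sum_nonneg fun _ _ => sq_nonneg _
      nlinarith
    nlinarith
  -- upper bound
  have hHK : ∀ x ∈ K, H x = 0 := by
    intro x hx
    rw [hH]
    refine sum_eq_zero fun q hq => sum_eq_zero fun a ha => ?_
    exact Set.indicator_of_notMem (hKd x hx q (hFm q hq).1 (hFm q hq).2.2 a (hG1 q ha)) _
  have hpt : ∀ x, H x * g x ≤ (ε / 2) * H x ^ 2 +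
      (1 / (2 * ε)) * Kᶜ.indicator (fun x => g x ^ 2) x := by
    intro x
    by_cases hx : x ∈ K
    · rw [hHK x hx, Set.indicator_of_notMem (by simpa using hx)]
      simp
    · rw [Set.indicator_of_mem (by simpa using hx)]
      have h1 : (ε / 2) * H x ^ 2 + (1 / (2 * ε)) * g x ^ 2 - H x * g x =
          (ε * H x - g x) ^ 2 / (2 * ε) := by
        field_simp
        ring
      have h2 : 0 ≤ (ε * H x - g x) ^ 2 / (2 * ε) := by positivity
      linarith
  have hφg : ∀ q a, (fun x => φ q a x * g x) = (B q a).indicator g := by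
    intro q a
    funext x
    by_cases hx : x ∈ B q a <;> simp [hφ, Set.indicator, hx]
  have hφgi : ∀ q a, Integrable (fun x => φ q a x * g x) := by
    intro q a
    rw [hφg]
    exact hgi.indicator (hBm q a)
  have hHg : (fun x => H x * g x) = fun x => ∑ q ∈ F, ∑ a ∈ G q, φ q a x * g x := by
    funext x
    rw [hH]
    simp only
    rw [sum_mul]
    exact sum_congr rfl fun q _ => sum_mul _ _ _
  have hHgi : Integrable (fun x => H x * g x) := by
    rw [hHg]
    exact integrable_finsetSum _ fun q _ => integrable_finsetSum _ fun a _ => hφgi q a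
  have hg2i : Integrable (fun x => Kᶜ.indicator (fun x => g x ^ 2) x) := by
    have hc : Continuous fun x => (g x) ^ 2 := hgc.pow 2
    have : IntegrableOn (fun x => (g x) ^ 2) Set.univ :=
      hc.continuousOn.integrableOn_compact isCompact_univ
    rw [integrableOn_univ] at this
    exact this.indicator hK.measurableSet.compl
  have hupper : ∫ x, H x * g x ≤ (ε / 2) * (9 * C + 1) := by
    have h1 : ∫ x, H x * g x ≤ ∫ x, ((ε / 2) * H x ^ 2 +
        (1 / (2 * ε)) * Kᶜ.indicator (fun x => g x ^ 2) x) :=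
      integral_mono hHgi ((hH2i.const_mul _).add (hg2i.const_mul _)) hpt
    rw [integral_add (hH2i.const_mul _) (hg2i.const_mul _), integral_const_mul,
      integral_const_mul] at h1
    have h2 : (ε / 2) * ∫ x, H x ^ 2 ≤ (ε / 2) * (9 * C) :=
      mul_le_mul_of_nonneg_left hH2v (by positivity)
    have h3 : (1 / (2 * ε)) * ∫ x, Kᶜ.indicator (fun x => g x ^ 2) x ≤ (1 / (2 * ε)) * ε ^ 2 :=
      mul_le_mul_of_nonneg_left hgε (by positivity)
    have h4 : (1 / (2 * ε)) * ε ^ 2 = ε / 2 := by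
      field_simp
    linarith
  -- lower bound
  have hgκ : κ ≤ ∫ x, g x := by
    have h1 : ∫ x, K.indicator (fun _ => (1 : ℝ)) x ≤ ∫ x, g x := by
      refine integral_mono (ind_integrable K hK.measurableSet) hgi fun x => ?_
      by_cases hx : x ∈ K
      · change K.indicator (fun _ => (1 : ℝ)) x ≤ g x
        rw [Set.indicator_of_mem hx, hgK x hx]
      · change K.indicator (fun _ => (1 : ℝ)) x ≤ g x
        rw [Set.indicator_of_notMem hx]
        exact hg0 x
    rwa [ind_integral K hK.measurableSet] at h1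
  have hbx_le : ∀ q ∈ F, ∀ a, ∫ x in B q a, g x ≤ 4 * (ψ q / q) ^ 2 := by
    intro q hq a
    have hq0 : (0 : ℝ) < q := by exact_mod_cast (hFm q hq).2.2
    have hq1 : (1 : ℝ) ≤ q := by exact_mod_cast (hFm q hq).2.2
    have h1 : ∫ x in B q a, g x ≤ ∫ _ in B q a, (1 : ℝ) :=
      setIntegral_mono hgi.integrableOn (integrable_const _).integrableOn hg1
    refine h1.trans (le_of_eq ?_)
    rw [setIntegral_const, smul_eq_mul, mul_one]
    refine vol_bx q a y _ (div_nonneg (h0 q) hq0.le) ?_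
    rw [div_le_iff₀ hq0]
    have := h8 q
    nlinarith
  have hlow1 : ∀ q ∈ F, 4 * ψ q ^ 2 * ((∫ x, g x) - ε - κ / 4) ≤ ∑ a ∈ G q, ∫ x in B q a, g x := by
    intro q hq
    have hq0 : (0 : ℝ) < q := by exact_mod_cast (hFm q hq).2.2
    have hδ0 : 0 ≤ ψ q / q := div_nonneg (h0 q) hq0.le
    have h1 := hN1 q (hFm q hq).2.1 (hFm q hq).2.2 y (ψ q / q) hδ0 (by
      rw [div_le_div_iff₀ hq0 (by positivity)]
      have := h8 q
      nlinarith)
    have h2 : ∑ a ∈ range q ×ˢ range q, ∫ x in B q a, g x =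
        (∑ a ∈ (range q ×ˢ range q) \ G q, ∫ x in B q a, g x) + ∑ a ∈ G q, ∫ x in B q a, g x :=
      (sum_sdiff (hG1 q)).symm
    have h3 : ∑ a ∈ (range q ×ˢ range q) \ G q, ∫ x in B q a, g x ≤
        ((q : ℝ) ^ 2 - (G q).card) * (4 * (ψ q / q) ^ 2) := by
      refine (sum_le_sum fun a _ => hbx_le q hq a).trans (le_of_eq ?_)
      rw [sum_const, nsmul_eq_mul, card_sdiff_of_subset (hG1 q), Nat.cast_sub (card_le_card (hG1 q)),
        card_product, card_range]
      push_cast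
      ring
    have h4 := hG2 q (hFm q hq).2.2
    have h5 : ((q : ℝ) ^ 2 - (G q).card) * (4 * (ψ q / q) ^ 2) ≤
        (κ / 4 * (q : ℝ) ^ 2) * (4 * (ψ q / q) ^ 2) := by
      refine mul_le_mul_of_nonneg_right ?_ (by positivity)
      linarith
    have h6 : (ψ q / q) ^ 2 * (q : ℝ) ^ 2 = ψ q ^ 2 := by
      field_simp
    change 4 * (ψ q / q) ^ 2 * (q : ℝ) ^ 2 * ((∫ x, g x) - ε) ≤
      ∑ a ∈ range q ×ˢ range q, ∫ x in B q a, g x at h1
    have h7 : 4 * (ψ q / q) ^ 2 * (q : ℝ) ^ 2 * ((∫ x, g x) - ε) = 4 * ψ q ^ 2 * ((∫ x, g x) - ε) := by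
      rw [← h6]; ring
    have h8' : (κ / 4 * (q : ℝ) ^ 2) * (4 * (ψ q / q) ^ 2) = 4 * ψ q ^ 2 * (κ / 4) := by
      rw [← h6]; ring
    rw [h7] at h1
    rw [h8'] at h5
    have h9 : 4 * ψ q ^ 2 * ((∫ x, g x) - ε - κ / 4) =
        4 * ψ q ^ 2 * ((∫ x, g x) - ε) - 4 * ψ q ^ 2 * (κ / 4) := by ring
    rw [h9]
    linarith
  have hHgv : ∫ x, H x * g x = ∑ q ∈ F, ∑ a ∈ G q, ∫ x in B q a, g x := by
    rw [hHg]
    rw [integral_finsetSum _ fun q _ => integrable_finsetSum _ fun a _ => hφgi q a]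
    refine sum_congr rfl fun q _ => ?_
    rw [integral_finsetSum _ fun a _ => hφgi q a]
    refine sum_congr rfl fun a _ => ?_
    rw [hφg, integral_indicator (hBm q a)]
  have hlower : 3 * κ - 4 * ε ≤ ∫ x, H x * g x := by
    rw [hHgv]
    refine le_trans ?_ (sum_le_sum hlow1)
    have h1 : ∑ q ∈ F, 4 * ψ q ^ 2 * ((∫ x, g x) - ε - κ / 4) =
        4 * Ψ * ((∫ x, g x) - ε - κ / 4) := by
      rw [← sum_mul, ← mul_sum]
    rw [h1]
    have hε' : ε ≤ κ / 10 := by
      rw [hεd]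
      exact div_le_div_of_nonneg_left hκ.le (by norm_num) (by linarith)
    have h2 : 3 * κ / 4 - ε ≤ (∫ x, g x) - ε - κ / 4 := by linarith
    have h3 : 0 ≤ 3 * κ / 4 - ε := by linarith
    nlinarith
  have hfin : (ε / 2) * (9 * C + 1) + 4 * ε < 3 * κ := by
    have h1 : ε * (9 * C + 10) = κ := by
      rw [hεd]
      field_simp
    nlinarith
  linarith

theorem p_wk : P_WK := by
  intro hSM hEQ y ψ h0 h8 hns
  have hall : ∀ᵐ x : TT, ∀ N : ℕ, ∃ q : ℕ, N ≤ q ∧ 0 < q ∧
      ∃ a ∈ range q ×ˢ range q, x ∈ bx q a y (ψ q / q) := by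
    rw [ae_all_iff]
    intro N
    rw [ae_iff]
    refine key hSM hEQ y ψ h0 h8 hns _ ?_ N ?_
    · have : {x : TT | ¬ ∃ q : ℕ, N ≤ q ∧ 0 < q ∧
          ∃ a ∈ range q ×ˢ range q, x ∈ bx q a y (ψ q / q)} =
          (⋃ q : ℕ, ⋃ (_ : N ≤ q), ⋃ (_ : 0 < q), ⋃ a ∈ range q ×ˢ range q,
            bx q a y (ψ q / q))ᶜ := by
        ext x
        simp only [Set.mem_ofPred_eq, Set.mem_compl_iff, Set.mem_iUnion, exists_prop]
      rw [this]
      refine IsOpen.isClosed_compl ?_
      exact isOpen_iUnion fun q => isOpen_iUnion fun _ => isOpen_iUnion fun _ =>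
        isOpen_iUnion fun a => isOpen_iUnion fun _ => isOpen_bx _ _ _ _
    · intro x hx q hNq hq a ha hxa
      exact hx ⟨q, hNq, hq, a, ha, hxa⟩
  filter_upwards [hall] with x hx
  rw [frequently_atTop]
  intro N
  obtain ⟨q, h1, h2, h3⟩ := hx N
  exact ⟨q, h1, h2, h3⟩

end Pool.Agent.W2helper53.KG
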